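import Pool.Agent.W488.Sp.Spec
import Pool.Agent.W646.Sp.Closure
import Pool.Agent.W848.SpecB

set_option autoImplicit false

open MeasureTheory Matrix
open scoped ENNReal Real

namespace Pool.Agent.Results.MP_a3bfa4_an.SpectralWithoutHadamard

/-- all (complex) eigenvalues of the integer matrix `R` have modulus greater than `1` -/
def IsExpanding {d : ℕ} (R : Matrix (Fin d) (Fin d) ℤ) : Prop :=
  ∀ z : ℂ, (R.map (Int.cast : ℤ → ℂ)).charpoly.IsRoot z → 1 < ‖z‖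

/-- the vector `R⁻¹ v` -/
noncomputable def invMul {d : ℕ} (R : Matrix (Fin d) (Fin d) ℤ) (v : Fin d → ℝ) : Fin d → ℝ :=
  (R.map (Int.cast : ℤ → ℝ))⁻¹ *ᵥ v

/-- `τ_b (x) = R⁻¹ (x + b)` -/
noncomputable def tau {d : ℕ} (R : Matrix (Fin d) (Fin d) ℤ) (b : Fin d → ℤ) (x : Fin d → ℝ) :
    Fin d → ℝ :=
  invMul R (x + fun i => (b i : ℝ))

/-- `μ` is the self-affine probability measure of `(R, B)`: `μ = (1/N) ∑ μ ∘ τ_b⁻¹` -/
def IsSelfAffine {d : ℕ} (R : Matrix (Fin d) (Fin d) ℤ) (B : Finset (Fin d → ℤ))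
    (μ : Measure (Fin d → ℝ)) : Prop :=
  IsProbabilityMeasure μ ∧ μ = (B.card : ℝ≥0∞)⁻¹ • ∑ b ∈ B, μ.map (tau R b)

/-- `T` is the attractor of the maps `τ_b`, `b ∈ B` -/
def IsAttractor {d : ℕ} (R : Matrix (Fin d) (Fin d) ℤ) (B : Finset (Fin d → ℤ))
    (T : Set (Fin d → ℝ)) : Prop :=
  IsCompact T ∧ T.Nonempty ∧ T = ⋃ b ∈ B, tau R b '' T

/-- the exponential `x ↦ exp (2 π i ⟨l, x⟩)` -/
noncomputable def expo {d : ℕ} (l x : Fin d → ℝ) : ℂ :=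
  Complex.exp (2 * π * Complex.I * ((∑ i, l i * x i : ℝ) : ℂ))

/-- for some countable `Λ` the exponentials `exp (2 π i ⟨l, x⟩)`, `l ∈ Λ`, are an orthonormal basis
of `L² (μ)` (`μ` a probability measure): they are pairwise orthogonal, and a function of `L² (μ)`
orthogonal to all of them vanishes `μ`-almost everywhere -/
def IsSpectral {d : ℕ} (μ : Measure (Fin d → ℝ)) : Prop :=
  ∃ Λ : Set (Fin d → ℝ), Λ.Countable ∧
    (∀ l ∈ Λ, ∀ l' ∈ Λ, l ≠ l' → ∫ x, expo (l - l') x ∂μ = 0) ∧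
    (∀ g : (Fin d → ℝ) → ℂ, MemLp g 2 μ → (∀ l ∈ Λ, ∫ x, g x * expo (-l) x ∂μ = 0) →
      g =ᵐ[μ] 0)

/-- the `τ_b (T)`, `b ∈ B`, are pairwise disjoint up to `μ`-null sets -/
def NoOverlap {d : ℕ} (R : Matrix (Fin d) (Fin d) ℤ) (B : Finset (Fin d → ℤ))
    (μ : Measure (Fin d → ℝ)) (T : Set (Fin d → ℝ)) : Prop :=
  ∀ b ∈ B, ∀ b' ∈ B, b ≠ b' → μ (tau R b '' T ∩ tau R b' '' T) = 0

/-- the matrix `N^{-1/2} (exp (2 π i ⟨R⁻¹ b, l⟩))`, `l ∈ L`, `b ∈ B`, `N = #B` -/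
noncomputable def hadamardMatrix {d : ℕ} (R : Matrix (Fin d) (Fin d) ℤ)
    (B L : Finset (Fin d → ℤ)) : Matrix L B ℂ :=
  fun l b => (Real.sqrt B.card : ℂ)⁻¹ *
    expo (invMul R (fun i => ((b : Fin d → ℤ) i : ℝ))) (fun i => ((l : Fin d → ℤ) i : ℝ))

/-- `(R, B, L)` is a Hadamard triple; for square matrices `H Hᴴ = 1` says that `H` is unitary -/
def IsHadamardTriple {d : ℕ} (R : Matrix (Fin d) (Fin d) ℤ) (B L : Finset (Fin d → ℤ)) : Prop :=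
  L.card = B.card ∧ hadamardMatrix R B L * (hadamardMatrix R B L)ᴴ = 1

theorem B12_eq : Pool.Agent.W754.Sp.BB Pool.Agent.W754.Sp.uu Pool.Agent.W754.Sp.ff =
    Pool.Agent.W754.Sp.B12 := rfl

theorem R12_eq : Pool.Agent.W754.Sp.RR Pool.Agent.W754.Sp.nn = Pool.Agent.W754.Sp.R12 := rfl

/-- **A spectral self-affine measure without overlap and without a Hadamard triple**, with simple
digits (`b - b' ∉ R ℤ^d` for `b ≠ b'` in `B`) and the usual normalisation. -/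
theorem result :
    ∃ (d : ℕ) (R : Matrix (Fin d) (Fin d) ℤ) (B : Finset (Fin d → ℤ))
      (μ : Measure (Fin d → ℝ)) (T : Set (Fin d → ℝ)),
      IsExpanding R ∧ 2 ≤ B.card ∧ (B.card : ℤ) < |R.det| ∧ 0 ∈ B ∧
      (∀ b ∈ B, ∀ b' ∈ B, b ≠ b' → ¬ ∃ v : Fin d → ℤ, R *ᵥ v = b - b') ∧
      AddSubgroup.closure {v : Fin d → ℤ | ∃ k : ℕ, ∃ b ∈ B, v = (R ^ k) *ᵥ b} = ⊤ ∧
      IsSelfAffine R B μ ∧ IsAttractor R B T ∧ IsSpectral μ ∧ NoOverlap R B μ T ∧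
      ¬ ∃ L : Finset (Fin d → ℤ), IsHadamardTriple R B L := by
  classical
  let _ : MeasurableSpace Pool.Agent.W754.Sp.PP := ⊤
  have : DiscreteMeasurableSpace Pool.Agent.W754.Sp.PP := ⟨fun _ => trivial⟩
  have h : Pool.Agent.W488.Sp.Hyp Pool.Agent.W754.Sp.nn Pool.Agent.W754.Sp.uu
      Pool.Agent.W754.Sp.ff :=
    ⟨fun j => by have := Pool.Agent.W646.Sp.nn_ge j; omega, Pool.Agent.W646.Sp.range,
      Pool.Agent.W646.Sp.bij⟩
  have hfull := h.full2 Pool.Agent.W646.Sp.uu_inj Pool.Agent.W646.Sp.R12_expanding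
  rw [B12_eq, R12_eq] at hfull
  obtain ⟨τ, μ, T, h1, h2, h3, h4, h5, h6, ⟨Λ, hΛ, h7⟩, h8⟩ := hfull
  have hτ : τ = tau Pool.Agent.W754.Sp.R12 := by
    funext b x
    exact h1 b x
  subst hτ
  refine ⟨6 + 6, Pool.Agent.W754.Sp.R12, Pool.Agent.W754.Sp.B12, μ, T,
    Pool.Agent.W646.Sp.R12_expanding, Pool.Agent.W646.Sp.two_le_card,
    Pool.Agent.W646.Sp.card_lt_det, Pool.Agent.W646.Sp.zero_mem, Pool.Agent.W646.Sp.B12_simple,
    Pool.Agent.W646.Sp.closure_eq_top, ⟨h2, h3⟩, ⟨h4, h5, h6⟩,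
    ⟨Λ, hΛ, fun l hl l' hl' hne => (h7.1 l hl l' hl').2 hne, fun g hg hg0 => h7.2 g hg ?_⟩, h8, ?_⟩
  · intro l hl
    rw [← hg0 l hl]
    congr 1
    funext x
    congr 2
    simp only [Pi.neg_apply, neg_mul, Finset.sum_neg_distrib]
    push_cast
    ring
  rintro ⟨L, hL, hH⟩
  apply Pool.Agent.W848.SpecB.no_hadamard
  refine ⟨L, hL, ?_⟩
  refine Pool.Agent.W488.Sp.rows_orthogonal Pool.Agent.W754.Sp.R12 Pool.Agent.W754.Sp.B12 L ?_ _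
    hH (fun l b => rfl)
  have := Pool.Agent.W646.Sp.two_le_card
  omega

end Pool.Agent.Results.MP_a3bfa4_an.SpectralWithoutHadamard
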